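import Mathlib
import Pool.Agent.Lib.MP_86e60f_al.An.HW
import Pool.Agent.Lib.MP_86e60f_al.HW.Pub2

set_option autoImplicit false

open IsLocalRing Pool.Agent.Lib.MP_86e60f_al Pool.Agent.Lib.MP_86e60f_al.HW

namespace Pool.Agent.Lib.MP_86e60f_al.Old.AnSurfacesV1

/-- Condition `(C_2)` over the complete surface singularities `x y = z ^ n` for the modules, of
any rank, over the complete intersection domains `R / (g)`. -/
theorem result {S : Type} [CommRing S] [IsRegularLocalRing S] (x y z : S)
    (hreg : RingTheory.Sequence.IsRegular S [x, y, z])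
    (hmax : maximalIdeal S = Ideal.span {x, y, z}) (n : ℕ) (hn : 2 ≤ n)
    (R : Type) [CommRing R] [IsLocalRing R] [IsDomain R] [IsAdicComplete (maximalIdeal R) R]
    (π : S →+* R) (hπ : Function.Surjective π)
    (hker : RingHom.ker π = Ideal.span {x * y - z ^ n}) (g : R) (hg : Prime g)
    (M : Type) [AddCommGroup M] [Module R M] [Module (R ⧸ Ideal.span {g}) M]
    [IsScalarTower R (R ⧸ Ideal.span {g}) M] [Module.Finite R M]
    (hM : IsCMOfCodim R M 1) (hT : TensorExtCM R M) :
    Module.Free (R ⧸ Ideal.span {g}) M ∧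
      CategoryTheory.projectiveDimension (ModuleCat.of R M) ≠ ⊤ := by
  have : IsNoetherianRing R := isNoetherianRing_of_surjective S R π hπ
  exact (An.isAn_of hreg hmax hn π hπ hker).hw hg M hM hT

end Pool.Agent.Lib.MP_86e60f_al.Old.AnSurfacesV1
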