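import Mathlib
import Pool.Agent.Lib.MP_86e60f_al.HW.Main
import Pool.Agent.Lib.MP_86e60f_al.HW.Pub

set_option autoImplicit false

open Pool.Agent.Lib.MP_86e60f_al.HW

namespace Pool.Agent.Lib.MP_86e60f_al.Old.Graded

/-- The Huneke-Wiegand conjecture for graded modules without endomorphisms of very negative
degree over graded complete intersection curves of codimension two. -/
theorem result {k ι : Type*} [Field k] [Fintype ι] (w : Fin 3 → ℤ) (hw : ∀ l, 0 < w l)
    (f g y : MvPolynomial (Fin 3) k) (d e n : ℤ) (hd : 0 < d) (he : 0 < e) (hn : 0 < n)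
    (hf : f.IsWeightedHomogeneous w d) (hg : g.IsWeightedHomogeneous w e)
    (hy : y.IsWeightedHomogeneous w n)
    (hreg : RingTheory.Sequence.IsRegular (MvPolynomial (Fin 3) k) [f, g, y])
    (hfin : FiniteDimensional k (MvPolynomial (Fin 3) k ⧸ Ideal.span {f, g, y}))
    (P : Ideal (MvPolynomial (Fin 3) k)) (hP : P = Ideal.span {f, g}) (b : ι → ℤ)
    (M : Submodule (MvPolynomial (Fin 3) k ⧸ P) (ι → MvPolynomial (Fin 3) k ⧸ P))
    (hgr : IsGradedSub w b (Ideal.Quotient.mk P) M)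
    (hcol : FiniteDimensional k ((ι → MvPolynomial (Fin 3) k ⧸ P) ⧸ M))
    (htf : TensorDualTF (MvPolynomial (Fin 3) k ⧸ P) M)
    (hEnd : ∀ j : ℤ, 2 * j + (w 0 + w 1 + w 2) ≤ 0 →
      NoEndOfDegree w b (Ideal.Quotient.mk P) M j) :
    Module.Projective (MvPolynomial (Fin 3) k ⧸ P) M := by
  classical
  obtain ⟨L, _, _, _, D, rfl, rfl, rfl⟩ := sMod k w f g y d e n hw hf hg hy hd he hn hreg hfin
  subst hP
  exact D.thmG b M hgr hcol htf hEnd

end Pool.Agent.Lib.MP_86e60f_al.Old.Graded
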